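import Pool.Agent.K4W.StmtsU

/-! Squad K4W, row URE: sums over residue classes. -/

set_option autoImplicit false

namespace Pool.Agent.K4W.H85

theorem ure : UreStmt := by
  intro g a ha hg
  have ha0 : a ≠ 0 := by omega
  have haZ : (a : ℤ) ≠ 0 := by exact_mod_cast ha0
  constructor
  · intro c
    have hinj : Function.Injective fun y : ℤ => c + (a : ℤ) * y := by
      intro y y' h
      have h1 : (a : ℤ) * y = (a : ℤ) * y' := by
        have h2 : c + (a : ℤ) * y = c + (a : ℤ) * y' := h
        linarith
      exact mul_left_cancel₀ haZ h1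
    exact hg.comp_injective hinj
  · haveI : NeZero a := ⟨ha0⟩
    let E : Fin a × ℤ ≃ ℤ := (Equiv.prodComm _ _).trans (Int.divModEquiv a).symm
    have hE : ∀ (c : Fin a) (y : ℤ), E (c, y) = ((c : ℕ) : ℤ) + (a : ℤ) * y := by
      intro c y
      change y * (a : ℤ) + ((c : ℕ) : ℤ) = _
      ring
    have hs : Summable fun q : Fin a × ℤ => g (E q) := E.summable_iff.2 hg
    rw [← E.tsum_eq g, hs.tsum_prod, tsum_fintype, Finset.sum_range]
    refine Finset.sum_congr rfl fun c _ => ?_
    refine tsum_congr fun y => ?_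
    rw [hE]

end Pool.Agent.K4W.H85
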